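import Mathlib

/-!
# MP_52ecc8_gt (helper75): Dietzmann's lemma, through Schur's theorem
-/

namespace MP_52ecc8_gt_h75

open Function
open scoped commutatorElement

/-- A group whose centre has finite index has finitely many commutators. -/
theorem finite_commutatorSet_of_center {K : Type*} [Group K]
    (h : (Subgroup.center K).FiniteIndex) : (commutatorSet K).Finite := by
  have hf : Finite (K ⧸ Subgroup.center K) := inferInstance
  let F : (K ⧸ Subgroup.center K) × (K ⧸ Subgroup.center K) → K := fun p => ⁅p.1.out, p.2.out⁆
  refine (Set.finite_range F).subset ?_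
  rintro _ ⟨a, b, rfl⟩
  refine ⟨(QuotientGroup.mk a, QuotientGroup.mk b), ?_⟩
  have key : ∀ x : K, ∃ z ∈ Subgroup.center K,
      ((QuotientGroup.mk x : K ⧸ Subgroup.center K).out) = x * z := by
    intro x
    refine ⟨x⁻¹ * (QuotientGroup.mk x : K ⧸ Subgroup.center K).out, ?_, by group⟩
    exact QuotientGroup.eq.1 (QuotientGroup.out_eq' _).symm
  obtain ⟨z, hz, hz'⟩ := key a
  obtain ⟨w, hw, hw'⟩ := key b
  change ⁅(QuotientGroup.mk a : K ⧸ Subgroup.center K).out,
    (QuotientGroup.mk b : K ⧸ Subgroup.center K).out⁆ = ⁅a, b⁆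
  rw [hz', hw', commutatorElement_def, commutatorElement_def]
  have hz1 := Subgroup.mem_center_iff.1 hz
  have hw1 := Subgroup.mem_center_iff.1 hw
  have e1 : a * z * (b * w) * (a * z)⁻¹ * (b * w)⁻¹
      = a * (z * (b * (w * (z⁻¹ * (a⁻¹ * (w⁻¹ * b⁻¹)))))) := by group
  rw [e1]
  have hzi : ∀ g : K, z⁻¹ * g = g * z⁻¹ := fun g =>
    (Subgroup.mem_center_iff.1 ((Subgroup.center K).inv_mem hz) g).symm
  have hwi : ∀ g : K, w⁻¹ * g = g * w⁻¹ := fun g =>
    (Subgroup.mem_center_iff.1 ((Subgroup.center K).inv_mem hw) g).symm
  have e2 : w * (z⁻¹ * (a⁻¹ * (w⁻¹ * b⁻¹))) = z⁻¹ * (a⁻¹ * b⁻¹) := by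
    rw [← mul_assoc w, ← mul_assoc (w * z⁻¹), ← hw1 z⁻¹]
    rw [mul_assoc z⁻¹ w a⁻¹, ← hw1 a⁻¹]
    group
  rw [e2, ← mul_assoc z, ← hz1 b, mul_assoc b z]
  rw [mul_inv_cancel_left]
  group

/-- **Dietzmann's lemma.** A finite, conjugation invariant set of elements of finite order
generates a finite subgroup. -/
theorem dietzmann {G : Type*} [Group G] (s : Set G) (hs : s.Finite)
    (hconj : ∀ g : G, ∀ x ∈ s, g * x * g⁻¹ ∈ s) (htor : ∀ x ∈ s, IsOfFinOrder x) :
    Finite (Subgroup.closure s) := by
  classical
  set K := Subgroup.closure s with hK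
  have hsf : Finite s := hs
  have hKfg : Group.FG K := Group.closure_finite_fg s
  -- the conjugation action of `K` on `s`
  let c : K →* Equiv.Perm s :=
    { toFun := fun k =>
        { toFun := fun x => ⟨k.1 * x.1 * k.1⁻¹, hconj _ _ x.2⟩
          invFun := fun x => ⟨k.1⁻¹ * x.1 * k.1, by simpa using hconj k.1⁻¹ _ x.2⟩
          left_inv := fun x => Subtype.ext (by group)
          right_inv := fun x => Subtype.ext (by group) }
      map_one' := by
        ext x; simp
      map_mul' := by
        intro a b
        ext x
        simp [mul_assoc] }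
  have hker : c.ker ≤ Subgroup.center K := by
    intro k hk
    rw [Subgroup.mem_center_iff]
    intro g
    -- `k` commutes with all elements of `s`, hence with `K`
    have h1 : ∀ x ∈ s, k.1 * x = x * k.1 := by
      intro x hx
      have h2 : (c k) ⟨x, hx⟩ = ⟨x, hx⟩ := by rw [MonoidHom.mem_ker.1 hk]; rfl
      have h3 : k.1 * x * k.1⁻¹ = x := congrArg Subtype.val h2
      calc k.1 * x = (k.1 * x * k.1⁻¹) * k.1 := by group
        _ = x * k.1 := by rw [h3]
    have h4 : K ≤ Subgroup.centralizer {k.1} := by
      refine (Subgroup.closure_le _).2 ?_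
      intro x hx
      rw [SetLike.mem_coe, Subgroup.mem_centralizer_singleton_iff]
      exact (h1 x hx).symm
    have h5 := h4 g.2
    rw [Subgroup.mem_centralizer_singleton_iff] at h5
    exact Subtype.ext h5
  have hcfi : (Subgroup.center K).FiniteIndex := by
    have : c.ker.FiniteIndex := inferInstance
    exact Subgroup.finiteIndex_of_le hker
  have hcs : Finite (commutatorSet K) := finite_commutatorSet_of_center hcfi
  have hc : Finite (_root_.commutator K) := inferInstance
  -- the abelianisation is finite
  have hab : Finite (Abelianization K) := by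
    have hfgab : Group.FG (Abelianization K) :=
      Group.fg_of_surjective (f := Abelianization.of) (QuotientGroup.mk'_surjective _)
    have htors : IsMulTorsion (Abelianization K) := by
      intro x
      obtain ⟨k, rfl⟩ := QuotientGroup.mk'_surjective (_root_.commutator K) x
      -- the set of elements of `K` which become torsion is a subgroup containing `s`
      let T : Subgroup K := (CommGroup.torsion (Abelianization K)).comap Abelianization.of
      have hT : T = ⊤ := by
        have h6 : ∀ y : G, ∀ hy : y ∈ K, (⟨y, hy⟩ : K) ∈ T := by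
          intro y hy
          induction hy using Subgroup.closure_induction with
          | mem z hz =>
            change IsOfFinOrder (Abelianization.of (⟨z, _⟩ : K))
            apply MonoidHom.isOfFinOrder
            have h7 := htor z hz
            rw [isOfFinOrder_iff_pow_eq_one] at h7 ⊢
            obtain ⟨n, hn, hn'⟩ := h7
            exact ⟨n, hn, Subtype.ext hn'⟩
          | one => exact T.one_mem
          | mul a b ha hb iha ihb => exact T.mul_mem iha ihb
          | inv a ha iha => exact T.inv_mem iha
        rw [eq_top_iff]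
        rintro ⟨y, hy⟩ _
        exact h6 y hy
      have h8 : k ∈ T := by rw [hT]; trivial
      exact h8
    exact CommGroup.finite_of_fg_isMulTorsion (Abelianization K) htors
  have hq : Finite (K ⧸ _root_.commutator K) := hab
  exact Finite.of_equiv _ (Subgroup.groupEquivQuotientProdSubgroup (s := _root_.commutator K)).symm

end MP_52ecc8_gt_h75
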