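import Pool.Agent.Lib.MP_52ecc8_gt_h75.Rad

/-!
# MP_52ecc8_gt (helper75): the polycyclic radical and iterated images
-/

namespace MP_52ecc8_gt_h75

open Function MP_52ecc8_gt_h60

universe u

/-- The induced endomorphism of `Γ ⧸ E` has an image of finite index. -/
theorem quot_range_finiteIndex {Γ : Type u} [Group Γ] (φ : Γ →* Γ)
    (hfi : φ.range.FiniteIndex) (E : Subgroup Γ) [E.Normal] (h1 : ∀ x ∈ E, φ x ∈ E) :
    (quot φ E h1).range.FiniteIndex := by
  have h2 : φ.range.map (QuotientGroup.mk' E) = (quot φ E h1).range := by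
    ext y
    constructor
    · rintro ⟨_, ⟨x, rfl⟩, rfl⟩
      exact ⟨QuotientGroup.mk' E x, rfl⟩
    · rintro ⟨q, rfl⟩
      obtain ⟨x, rfl⟩ := QuotientGroup.mk'_surjective E q
      exact ⟨φ x, ⟨x, rfl⟩, rfl⟩
  have h3 : (φ.range.map (QuotientGroup.mk' E)).index ≠ 0 := by
    intro h4
    have h5 := Subgroup.index_map_dvd φ.range (QuotientGroup.mk'_surjective E)
    rw [h4, Nat.zero_dvd] at h5
    exact hfi.index_ne_zero h5
  rw [h2] at h3
  exact ⟨h3⟩

theorem core_eq_top {G : Type u} [Group G] (ψ : G →* G) (h : Surjective ψ) : core ψ = ⊤ := by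
  rw [eq_top_iff]
  intro g _ k
  exact (h.iterate k) g

/-- If `Γ` is finitely presented and `Γ ⧸ E` is not isomorphic to a proper subgroup of finite
index, the iterated image is finitely presented. -/
theorem fp_of_cohopf {Γ : Type u} [Group Γ] (φ : Γ →* Γ)
    (hfi : φ.range.FiniteIndex) (E : Subgroup Γ) [E.Normal] (hE : VirtuallyPolycyclic E)
    (h1 : ∀ x ∈ E, φ x ∈ E) (h2 : ∀ x, φ x ∈ E → x ∈ E) (hL : Lifts φ E h1)
    (hfp : Group.IsFinitelyPresented Γ)
    (hco : ∀ ψ : Γ ⧸ E →* Γ ⧸ E, Injective ψ → ψ.range.FiniteIndex → Surjective ψ) :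
    Group.IsFinitelyPresented (core φ) := by
  apply hL.2
  have h3 := hco (quot φ E h1) (quot_injective φ E h1 h2) (quot_range_finiteIndex φ hfi E h1)
  have h4 := core_eq_top (quot φ E h1) h3
  have h5 : Group.FG E := (Group.fg_iff_subgroup_fg _).2 (hE.1 E le_rfl)
  have h6 : Group.IsFinitelyPresented (Γ ⧸ E) :=
    Group.IsFinitelyPresented.quotient E (Subgroup.IsFinitelyNormallyGenerated.of_FG E)
  rw [h4]
  exact Group.IsFinitelyPresented.equiv Subgroup.topEquiv.symm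

theorem final {Γ : Type u} [Group Γ] (φ : Γ →* Γ) (hφ : Injective φ)
    (hfi : φ.range.FiniteIndex) (E : Subgroup Γ) [hEn : E.Normal] (hE : VirtuallyPolycyclic E)
    (h : (∀ x, φ x ∈ E ↔ x ∈ E) ∨
      (∀ E' : Subgroup Γ, E'.Normal → VirtuallyPolycyclic E' → E' ≤ E)) :
    ∃ h1 : ∀ x ∈ E, φ x ∈ E, (∀ x, φ x ∈ E → x ∈ E) ∧
      (Group.FG (core (quot φ E h1)) → Group.FG (core φ)) ∧
      (Group.IsFinitelyPresented (core (quot φ E h1)) →
        Group.IsFinitelyPresented (core φ)) ∧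
      (Group.IsFinitelyPresented Γ →
        (∀ ψ : Γ ⧸ E →* Γ ⧸ E, Injective ψ → ψ.range.FiniteIndex → Surjective ψ) →
        Group.IsFinitelyPresented (core φ)) := by
  have h1 : ∀ x ∈ E, φ x ∈ E := by
    rcases h with h | h
    · exact fun x hx => (h x).2 hx
    · exact radical_map E hE h φ hφ hfi
  have h2 : ∀ x, φ x ∈ E → x ∈ E := by
    rcases h with h | h
    · exact fun x hx => (h x).1 hx
    · exact radical_comap E hE h φ hφ
  have hL : Lifts φ E h1 := main φ hφ hfi E h1 h2 hE.1 hE.2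
  exact ⟨h1, h2, hL.1, hL.2, fp_of_cohopf φ hfi E hE h1 h2 hL⟩

end MP_52ecc8_gt_h75
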