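import Pool.Agent.Lib.MP_52ecc8_gt_h75.Vpc

/-!
# MP_52ecc8_gt (helper75): the polycyclic radical is commensurability invariant
-/

namespace MP_52ecc8_gt_h75

open Function MP_52ecc8_gt_h60

universe u v

/-- `N` normalises `D` and contains it, and `D` is virtually polycyclic. -/
def Good {Γ : Type u} [Group Γ] (N D : Subgroup Γ) : Prop :=
  D ≤ N ∧ (∀ n ∈ N, ∀ x ∈ D, n * x * n⁻¹ ∈ D) ∧ VirtuallyPolycyclic D

theorem good_bot {Γ : Type u} [Group Γ] (N : Subgroup Γ) : Good N (⊥ : Subgroup Γ) := by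
  refine ⟨bot_le, ?_, ?_, ⊥, le_rfl, ?_, ?_⟩
  · intro n _ x hx
    rw [Subgroup.mem_bot] at hx ⊢
    rw [hx]; group
  · intro H hH
    rw [le_bot_iff.1 hH]
    exact ⟨∅, by simp⟩
  · rw [Subgroup.relIndex_self]; exact one_ne_zero
  · infer_instance

theorem good_sup {Γ : Type u} [Group Γ] {N A B : Subgroup Γ} (hA : Good N A) (hB : Good N B) :
    Good N (A ⊔ B) := by
  obtain ⟨hA1, hA2, hA3⟩ := hA
  obtain ⟨hB1, hB2, hB3⟩ := hB
  have nA : (A.subgroupOf N).Normal := ⟨fun x hx g => hA2 g.1 g.2 x.1 hx⟩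
  have nB : (B.subgroupOf N).Normal := ⟨fun x hx g => hB2 g.1 g.2 x.1 hx⟩
  have eA : (A.subgroupOf N).map N.subtype = A := by
    rw [Subgroup.subgroupOf_map_subtype]; exact inf_eq_left.2 hA1
  have eB : (B.subgroupOf N).map N.subtype = B := by
    rw [Subgroup.subgroupOf_map_subtype]; exact inf_eq_left.2 hB1
  have hi : Injective N.subtype := Subgroup.subtype_injective N
  have vA : VirtuallyPolycyclic (A.subgroupOf N) := vpc_of_map hi (by rw [eA]; exact hA3)
  have vB : VirtuallyPolycyclic (B.subgroupOf N) := vpc_of_map hi (by rw [eB]; exact hB3)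
  have vS := vpc_sup (A.subgroupOf N) (B.subgroupOf N) vA vB
  have eS : (A.subgroupOf N ⊔ B.subgroupOf N).map N.subtype = A ⊔ B := by
    rw [Subgroup.map_sup, eA, eB]
  refine ⟨sup_le hA1 hB1, ?_, ?_⟩
  · intro n hn x hx
    rw [← eS] at hx ⊢
    obtain ⟨y, hy, rfl⟩ := hx
    have nS : (A.subgroupOf N ⊔ B.subgroupOf N).Normal := inferInstance
    exact ⟨⟨n, hn⟩ * y * ⟨n, hn⟩⁻¹, nS.conj_mem y hy ⟨n, hn⟩, rfl⟩
  · rw [← eS]; exact vpc_map hi vS

theorem good_finset_sup {Γ : Type u} [Group Γ] {N : Subgroup Γ} {ι : Type*} (s : Finset ι)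
    (D : ι → Subgroup Γ) (h : ∀ i ∈ s, Good N (D i)) : Good N (s.sup D) := by
  classical
  induction s using Finset.induction_on with
  | empty => rw [Finset.sup_empty]; exact good_bot N
  | insert i s hi ih =>
    rw [Finset.sup_insert]
    exact good_sup (h i (Finset.mem_insert_self i s))
      (ih fun j hj => h j (Finset.mem_insert_of_mem hj))

/-- `g D g⁻¹`. -/
def conjBy {Γ : Type u} [Group Γ] (g : Γ) (D : Subgroup Γ) : Subgroup Γ :=
  D.map (MulAut.conj g).toMonoidHom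

theorem mem_conjBy {Γ : Type u} [Group Γ] {g x : Γ} {D : Subgroup Γ} :
    x ∈ conjBy g D ↔ g⁻¹ * x * g ∈ D := by
  constructor
  · rintro ⟨y, hy, rfl⟩
    have : g⁻¹ * ((MulAut.conj g).toMonoidHom y) * g = y := by
      change g⁻¹ * (g * y * g⁻¹) * g = y
      group
    rw [this]; exact hy
  · intro h
    refine ⟨_, h, ?_⟩
    change g * (g⁻¹ * x * g) * g⁻¹ = x
    group

/-- **The polycyclic radical is commensurability invariant.**  If `R` is the largest virtually
polycyclic normal subgroup of `Γ`, then every virtually polycyclic subgroup of `Γ` which is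
normalised by a subgroup of finite index lies in `R`. -/
theorem le_radical {Γ : Type u} [Group Γ] (R : Subgroup Γ) [hRn : R.Normal]
    (hR : VirtuallyPolycyclic R)
    (hmax : ∀ E : Subgroup Γ, E.Normal → VirtuallyPolycyclic E → E ≤ R)
    (D : Subgroup Γ) (hD : VirtuallyPolycyclic D) (Γ' : Subgroup Γ) (hfi : Γ'.FiniteIndex)
    (hnorm : ∀ g ∈ Γ', ∀ x ∈ D, g * x * g⁻¹ ∈ D) : D ≤ R := by
  classical
  set N := Γ'.normalCore with hN
  have hNn : N.Normal := inferInstance
  have hNfi : N.FiniteIndex := inferInstance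
  have hNle : N ≤ Γ' := Γ'.normalCore_le
  have hq : Finite (Γ ⧸ N) := inferInstance
  have : Fintype (Γ ⧸ N) := Fintype.ofFinite _
  let C : Γ → Subgroup Γ := fun g => conjBy g D ⊓ N
  have hCeq : ∀ g n : Γ, n ∈ N → C (g * n) = C g := by
    intro g n hn
    ext x
    change (x ∈ conjBy (g * n) D ∧ x ∈ N) ↔ (x ∈ conjBy g D ∧ x ∈ N)
    rw [mem_conjBy, mem_conjBy]
    have e1 : (g * n)⁻¹ * x * (g * n) = n⁻¹ * (g⁻¹ * x * g) * n := by group
    rw [e1]
    refine and_congr_left fun _ => ⟨fun h => ?_, fun h => ?_⟩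
    · have := hnorm n (hNle hn) _ h
      have e2 : n * (n⁻¹ * (g⁻¹ * x * g) * n) * n⁻¹ = g⁻¹ * x * g := by group
      rwa [e2] at this
    · have := hnorm n⁻¹ (Γ'.inv_mem (hNle hn)) _ h
      rwa [inv_inv] at this
  have hCq : ∀ g : Γ, C g = C (QuotientGroup.mk g : Γ ⧸ N).out := by
    intro g
    have h1 : g⁻¹ * (QuotientGroup.mk g : Γ ⧸ N).out ∈ N :=
      QuotientGroup.eq.1 (QuotientGroup.out_eq' _).symm
    have h2 : g * (g⁻¹ * (QuotientGroup.mk g : Γ ⧸ N).out) =
        (QuotientGroup.mk g : Γ ⧸ N).out := by group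
    rw [← hCeq g _ h1, h2]
  have hCgood : ∀ g : Γ, Good N (C g) := by
    intro g
    refine ⟨inf_le_right, ?_, ?_⟩
    · rintro n hn x ⟨hx1, hx2⟩
      refine ⟨?_, hNn.conj_mem x hx2 n⟩
      change n * x * n⁻¹ ∈ conjBy g D
      have hx1' : x ∈ conjBy g D := hx1
      rw [mem_conjBy] at hx1' ⊢
      have h1 : g⁻¹ * n * g ∈ N := by
        have := hNn.conj_mem n hn g⁻¹
        rwa [inv_inv] at this
      have := hnorm _ (hNle h1) _ hx1'
      have e1 : g⁻¹ * n * g * (g⁻¹ * x * g) * (g⁻¹ * n * g)⁻¹ = g⁻¹ * (n * x * n⁻¹) * g := by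
        group
      rwa [e1] at this
    · exact vpc_mono inf_le_left (vpc_map (MulAut.conj g).injective hD)
  set P := (Finset.univ : Finset (Γ ⧸ N)).sup (fun q => C q.out) with hP
  have hPgood : Good N P := good_finset_sup _ _ fun q _ => hCgood _
  have hCP : ∀ g, C g ≤ P := by
    intro g
    rw [hCq g]
    exact Finset.le_sup (f := fun q : Γ ⧸ N => C q.out) (Finset.mem_univ _)
  have hPn : P.Normal := by
    constructor
    intro x hx h
    have h1 : P ≤ P.comap (MulAut.conj h).toMonoidHom := by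
      rw [hP]
      refine Finset.sup_le fun q _ => ?_
      intro y hy
      change h * y * h⁻¹ ∈ P
      apply hCP (h * q.out)
      have hy1 : y ∈ conjBy q.out D := hy.1
      refine ⟨?_, hNn.conj_mem y hy.2 h⟩
      change h * y * h⁻¹ ∈ conjBy (h * q.out) D
      rw [mem_conjBy] at hy1 ⊢
      have e1 : (h * q.out)⁻¹ * (h * y * h⁻¹) * (h * q.out) = q.out⁻¹ * y * q.out := by group
      rw [e1]; exact hy1
    exact h1 hx
  have hPR : P ≤ R := hmax P hPn hPgood.2.2
  have hDN : D ⊓ N ≤ R := by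
    refine le_trans ?_ hPR
    refine le_trans ?_ (hCP 1)
    rintro x ⟨hx1, hx2⟩
    refine ⟨?_, hx2⟩
    change x ∈ conjBy 1 D
    rw [mem_conjBy]; simpa using hx1
  -- the image of `D` in `Γ ⧸ R` is finite
  set F := D.map (QuotientGroup.mk' R) with hF
  have hRD : R.relIndex D ≠ 0 := by
    have h1 : (D ⊓ N).relIndex D ≠ 0 := by
      rw [inf_comm, Subgroup.inf_relIndex_right]
      intro h2
      have h3 : N.relIndex D ∣ N.index := Subgroup.relIndex_dvd_index_of_normal N D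
      rw [h2, Nat.zero_dvd] at h3
      exact hNfi.index_ne_zero h3
    intro h2
    have h3 : R.relIndex D ∣ (D ⊓ N).relIndex D := Subgroup.relIndex_dvd_of_le_left D hDN
    rw [h2, Nat.zero_dvd] at h3
    exact h1 h3
  have hFf : Finite F := by
    have h1 : (R.subgroupOf D).FiniteIndex := ⟨hRD⟩
    have h2 : Finite (D ⧸ R.subgroupOf D) := inferInstance
    have h3 : ∀ y : F, ∃ x : D, QuotientGroup.mk' R x.1 = y.1 := by
      rintro ⟨_, ⟨x, hx, rfl⟩⟩
      exact ⟨⟨x, hx⟩, rfl⟩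
    choose c hc using h3
    refine Finite.of_injective (fun y : F => (QuotientGroup.mk (c y) : D ⧸ R.subgroupOf D)) ?_
    intro y z hyz
    have h4 : (c y)⁻¹ * c z ∈ R.subgroupOf D := QuotientGroup.eq.1 hyz
    have h5 : (QuotientGroup.mk (c y).1 : Γ ⧸ R) = QuotientGroup.mk (c z).1 :=
      QuotientGroup.eq.2 h4
    apply Subtype.ext
    rw [← hc y, ← hc z]
    exact h5
  -- its conjugates form a finite set
  let s : Set (Γ ⧸ R) := {y | ∃ g : Γ, ∃ f ∈ F,
    y = QuotientGroup.mk' R g * f * (QuotientGroup.mk' R g)⁻¹}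
  have hs : s.Finite := by
    let G : (Γ ⧸ N) × F → Γ ⧸ R := fun p =>
      QuotientGroup.mk' R p.1.out * p.2.1 * (QuotientGroup.mk' R p.1.out)⁻¹
    refine (Set.finite_range G).subset ?_
    rintro _ ⟨g, f, hf, rfl⟩
    have h1 : g⁻¹ * (QuotientGroup.mk g : Γ ⧸ N).out ∈ N :=
      QuotientGroup.eq.1 (QuotientGroup.out_eq' _).symm
    set m := (QuotientGroup.mk g : Γ ⧸ N).out with hm
    obtain ⟨d, hd, rfl⟩ := hf
    have h2 : m⁻¹ * g ∈ Γ' := by
      have := Γ'.inv_mem (hNle h1)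
      rwa [mul_inv_rev, inv_inv] at this
    have h3 := hnorm _ h2 d hd
    refine ⟨(QuotientGroup.mk g, ⟨QuotientGroup.mk' R (m⁻¹ * g * d * (m⁻¹ * g)⁻¹), ⟨_, h3, rfl⟩⟩), ?_⟩
    change QuotientGroup.mk' R m * QuotientGroup.mk' R (m⁻¹ * g * d * (m⁻¹ * g)⁻¹) *
      (QuotientGroup.mk' R m)⁻¹ = QuotientGroup.mk' R g * QuotientGroup.mk' R d *
        (QuotientGroup.mk' R g)⁻¹
    rw [← map_inv, ← map_mul, ← map_mul, ← map_inv, ← map_mul, ← map_mul]
    congr 1
    group
  have hsconj : ∀ g : Γ ⧸ R, ∀ x ∈ s, g * x * g⁻¹ ∈ s := by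
    rintro g _ ⟨h, f, hf, rfl⟩
    obtain ⟨g, rfl⟩ := QuotientGroup.mk'_surjective R g
    refine ⟨g * h, f, hf, ?_⟩
    rw [map_mul, mul_inv_rev]
    group
  have hstor : ∀ x ∈ s, IsOfFinOrder x := by
    rintro _ ⟨h, f, hf, rfl⟩
    have h1 : IsOfFinOrder (⟨f, hf⟩ : F) := isOfFinOrder_of_finite _
    have h2 : IsOfFinOrder f := by
      rw [isOfFinOrder_iff_pow_eq_one] at h1 ⊢
      obtain ⟨n, hn, hn'⟩ := h1
      exact ⟨n, hn, congrArg Subtype.val hn'⟩
    rw [isOfFinOrder_iff_pow_eq_one] at h2 ⊢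
    obtain ⟨n, hn, hn'⟩ := h2
    refine ⟨n, hn, ?_⟩
    rw [conj_pow, hn']
    group
  have hKf := dietzmann s hs hsconj hstor
  set K := Subgroup.closure s with hK
  have hKn : K.Normal := by
    constructor
    intro x hx g
    have h1 : K ≤ K.comap (MulAut.conj g).toMonoidHom := by
      rw [hK, Subgroup.closure_le]
      intro y hy
      exact Subgroup.subset_closure (hsconj g y hy)
    exact h1 hx
  set R' := K.comap (QuotientGroup.mk' R) with hR'
  have hR'n : R'.Normal := inferInstance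
  have hRR' : R ≤ R' := by
    intro x hx
    change QuotientGroup.mk' R x ∈ K
    have h1 : QuotientGroup.mk' R x = 1 := (QuotientGroup.eq_one_iff x).2 hx
    rw [h1]; exact K.one_mem
  have hri : R.relIndex R' ≠ 0 := by
    have h1 : Finite (R' ⧸ R.subgroupOf R') := by
      let G : R' ⧸ R.subgroupOf R' → K := fun q => ⟨QuotientGroup.mk' R q.out.1, q.out.2⟩
      refine Finite.of_injective G ?_
      intro p q hpq
      have h2 : QuotientGroup.mk' R p.out.1 = QuotientGroup.mk' R q.out.1 :=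
        congrArg Subtype.val hpq
      have h3 : (p.out.1)⁻¹ * q.out.1 ∈ R := QuotientGroup.eq.1 h2
      have h4 : (p.out)⁻¹ * q.out ∈ R.subgroupOf R' := h3
      rw [← QuotientGroup.eq, QuotientGroup.out_eq', QuotientGroup.out_eq'] at h4
      exact h4
    have h5 : (R.subgroupOf R').FiniteIndex := Subgroup.finiteIndex_of_finite_quotient
    exact h5.index_ne_zero
  have h6 : R' ≤ R := hmax R' hR'n (vpc_finite_ext hRR' hri hR)
  intro x hx
  apply h6
  change QuotientGroup.mk' R x ∈ K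
  apply Subgroup.subset_closure
  refine ⟨1, QuotientGroup.mk' R x, ⟨x, hx, rfl⟩, ?_⟩
  simp

/-- Every injective endomorphism with image of finite index maps the radical into itself. -/
theorem radical_map {Γ : Type u} [Group Γ] (R : Subgroup Γ) [hRn : R.Normal]
    (hR : VirtuallyPolycyclic R)
    (hmax : ∀ E : Subgroup Γ, E.Normal → VirtuallyPolycyclic E → E ≤ R)
    (φ : Γ →* Γ) (hφ : Injective φ) (hfi : φ.range.FiniteIndex) : ∀ x ∈ R, φ x ∈ R := by
  have h := le_radical R hR hmax (R.map φ) (vpc_map hφ hR) φ.range hfi (by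
    rintro _ ⟨g, rfl⟩ _ ⟨x, hx, rfl⟩
    exact ⟨g * x * g⁻¹, hRn.conj_mem x hx g, by simp⟩)
  exact fun x hx => h ⟨x, hx, rfl⟩

/-- The preimage of the radical is the radical. -/
theorem radical_comap {Γ : Type u} [Group Γ] (R : Subgroup Γ) [hRn : R.Normal]
    (hR : VirtuallyPolycyclic R)
    (hmax : ∀ E : Subgroup Γ, E.Normal → VirtuallyPolycyclic E → E ≤ R)
    (φ : Γ →* Γ) (hφ : Injective φ) : ∀ x, φ x ∈ R → x ∈ R := by
  intro x hx
  have h1 : (R.comap φ).Normal := inferInstance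
  have h2 : VirtuallyPolycyclic (R.comap φ) := by
    apply vpc_of_map hφ
    exact vpc_mono (Subgroup.map_comap_le φ R) hR
  exact hmax _ h1 h2 hx

end MP_52ecc8_gt_h75
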