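import Pool.Agent.Lib.MP_52ecc8_gt_h60.Solv
import Pool.Agent.Lib.MP_52ecc8_gt_h75.Diet

/-!
# MP_52ecc8_gt (helper75): closure properties of virtually polycyclic subgroups
-/

namespace MP_52ecc8_gt_h75

open Function MP_52ecc8_gt_h60

universe u v

theorem solvable_mono {G : Type u} [Group G] {A B : Subgroup G} (h : A ≤ B)
    (hB : Group.IsSolvable B) : Group.IsSolvable A :=
  Group.isSolvable_of_isSolvable_injective (f := Subgroup.inclusion h) (Subgroup.inclusion_injective h)

theorem fg_map_iff {G : Type u} {G' : Type v} [Group G] [Group G'] {f : G →* G'}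
    (hf : Injective f) (H : Subgroup G) : (H.map f).FG ↔ H.FG := by
  have e : H ≃* H.map f := H.equivMapOfInjective f hf
  constructor
  · intro h
    have h4 : Group.FG (H.map f) := (Group.fg_iff_subgroup_fg _).2 h
    exact (Group.fg_iff_subgroup_fg _).1
      (Group.fg_of_surjective (f := e.symm.toMonoidHom) e.symm.surjective)
  · intro h
    have h4 : Group.FG H := (Group.fg_iff_subgroup_fg _).2 h
    exact (Group.fg_iff_subgroup_fg _).1
      (Group.fg_of_surjective (f := e.toMonoidHom) e.surjective)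

theorem vpc_mono {G : Type u} [Group G] {A B : Subgroup G} (h : A ≤ B)
    (hB : VirtuallyPolycyclic B) : VirtuallyPolycyclic A := by
  obtain ⟨h1, S, hSB, hSi, hS⟩ := hB
  refine ⟨fun H hH => h1 H (hH.trans h), S ⊓ A, inf_le_right, ?_, solvable_mono inf_le_left hS⟩
  rw [Subgroup.inf_relIndex_right]
  intro h2
  exact hSi (Subgroup.relIndex_eq_zero_of_le_right h h2)

theorem vpc_map {G : Type u} {G' : Type v} [Group G] [Group G'] {f : G →* G'}
    (hf : Injective f) {E : Subgroup G} (hE : VirtuallyPolycyclic E) :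
    VirtuallyPolycyclic (E.map f) := by
  obtain ⟨h1, S, hSE, hSi, hS⟩ := hE
  refine ⟨fun H hH => ?_, S.map f, Subgroup.map_mono hSE, ?_, ?_⟩
  · have h2 : (H.comap f).map f = H := by
      rw [Subgroup.map_comap_eq, inf_eq_right]
      exact hH.trans (Subgroup.map_le_range f E)
    rw [← h2, fg_map_iff hf]
    apply h1
    intro x hx
    obtain ⟨y, hy, hyx⟩ := hH hx
    rw [← hf hyx]; exact hy
  · rw [Subgroup.relIndex_map_map_of_injective _ _ hf]; exact hSi
  · have e : S ≃* S.map f := S.equivMapOfInjective f hf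
    exact Group.isSolvable_of_surjective (f := e.toMonoidHom) e.surjective

theorem vpc_of_map {G : Type u} {G' : Type v} [Group G] [Group G'] {f : G →* G'}
    (hf : Injective f) {E : Subgroup G} (hE : VirtuallyPolycyclic (E.map f)) :
    VirtuallyPolycyclic E := by
  obtain ⟨h1, S, hSE, hSi, hS⟩ := hE
  have h2 : (S.comap f).map f = S := by
    rw [Subgroup.map_comap_eq, inf_eq_right]
    exact hSE.trans (Subgroup.map_le_range f E)
  refine ⟨fun H hH => (fg_map_iff hf H).1 (h1 _ (Subgroup.map_mono hH)), S.comap f, ?_, ?_, ?_⟩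
  · intro x hx
    obtain ⟨y, hy, hyx⟩ := hSE hx
    rw [← hf hyx]; exact hy
  · rw [← Subgroup.relIndex_map_map_of_injective _ _ hf, h2]; exact hSi
  · have e : S.comap f ≃* (S.comap f).map f := (S.comap f).equivMapOfInjective f hf
    rw [h2] at e
    exact Group.isSolvable_of_surjective (f := e.symm.toMonoidHom) e.symm.surjective

/-- Extension by a finite group. -/
theorem vpc_finite_ext {G : Type u} [Group G] {R R' : Subgroup G} (hle : R ≤ R')
    (hfi : R.relIndex R' ≠ 0) (hR : VirtuallyPolycyclic R) : VirtuallyPolycyclic R' := by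
  obtain ⟨h1, S, hSR, hSi, hS⟩ := hR
  refine ⟨fun H hH => ?_, S, hSR.trans hle, Subgroup.relIndex_ne_zero_trans hSi hfi, hS⟩
  have h2 : (R.subgroupOf H).FiniteIndex := by
    refine ⟨fun h3 => hfi ?_⟩
    exact Subgroup.relIndex_eq_zero_of_le_right hH h3
  have h3 : ((R.subgroupOf H).map H.subtype).FG := by
    apply h1
    rw [Subgroup.subgroupOf_map_subtype]
    exact inf_le_left
  have h4 : (R.subgroupOf H).FG := (fg_map_iff (Subgroup.subtype_injective H) _).1 h3
  have h5 : Group.FG (R.subgroupOf H) := (Group.fg_iff_subgroup_fg _).2 h4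
  have h6 : Group.FG H := fg_of_finiteIndex_fg _ h5
  exact (Group.fg_iff_subgroup_fg _).1 h6

/-- A virtually polycyclic normal subgroup has a solvable subgroup of finite index which is
normal in the whole group. -/
theorem exists_normal_solv {G : Type u} [Group G] (E : Subgroup G) [hEn : E.Normal]
    (hE : VirtuallyPolycyclic E) :
    ∃ E0 : Subgroup G, E0 ≤ E ∧ E0.Normal ∧ E0.relIndex E ≠ 0 ∧ Group.IsSolvable E0 := by
  classical
  obtain ⟨hN, S, hSE, hSfi, hS⟩ := hE
  have hEfg : Group.FG E := (Group.fg_iff_subgroup_fg _).2 (hN E le_rfl)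
  have hSfin : (S.subgroupOf E).FiniteIndex := ⟨hSfi⟩
  have hSq : Finite (E ⧸ S.subgroupOf E) := inferInstance
  let F := Equiv.Perm (E ⧸ S.subgroupOf E)
  have hF : Finite F := inferInstance
  have hHom : Finite (E →* F) := finite_hom E F hEfg
  set K : Subgroup E := ⨅ f : E →* F, f.ker with hK
  have hKfi : K.FiniteIndex := by
    have h3 : ∀ f : E →* F, f.ker.FiniteIndex := fun f => inferInstance
    exact Subgroup.finiteIndex_iInf h3
  have memE0 : ∀ x, x ∈ K.map E.subtype ↔ ∃ hx : x ∈ E, ∀ f : E →* F, f ⟨x, hx⟩ = 1 := by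
    intro x
    constructor
    · rintro ⟨y, hy, rfl⟩
      exact ⟨y.2, fun f => (Subgroup.mem_iInf.1 hy) f⟩
    · rintro ⟨hx, h⟩
      exact ⟨⟨x, hx⟩, Subgroup.mem_iInf.2 h, rfl⟩
  refine ⟨K.map E.subtype, fun x hx => ((memE0 x).1 hx).1, ⟨?_⟩, ?_, ?_⟩
  · intro x hx g
    obtain ⟨hxE, hxf⟩ := (memE0 x).1 hx
    rw [memE0]
    refine ⟨hEn.conj_mem x hxE g, fun f => ?_⟩
    let c : E →* E :=
      { toFun := fun y => ⟨g * y.1 * g⁻¹, hEn.conj_mem y.1 y.2 g⟩
        map_one' := by apply Subtype.ext; simp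
        map_mul' := by
          intro a b
          apply Subtype.ext
          change g * (a.1 * b.1) * g⁻¹ = (g * a.1 * g⁻¹) * (g * b.1 * g⁻¹)
          group }
    exact hxf (f.comp c)
  · have h3 : (K.map E.subtype).subgroupOf E = K := by
      ext y
      rw [Subgroup.mem_subgroupOf, memE0]
      constructor
      · rintro ⟨hy, h⟩; exact Subgroup.mem_iInf.2 h
      · intro h; exact ⟨y.2, Subgroup.mem_iInf.1 h⟩
    rw [Subgroup.relIndex, h3]
    exact hKfi.index_ne_zero
  · refine solvable_mono (B := S) ?_ hS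
    intro x hx
    obtain ⟨hxE, hxf⟩ := (memE0 x).1 hx
    have h3 := hxf (MulAction.toPermHom E (E ⧸ S.subgroupOf E))
    have h4 := congrArg (fun p : Equiv.Perm (E ⧸ S.subgroupOf E) =>
      p (QuotientGroup.mk (1 : E))) h3
    have h5 : (QuotientGroup.mk ((⟨x, hxE⟩ : E) * 1) : E ⧸ S.subgroupOf E) =
        QuotientGroup.mk (1 : E) := h4
    rw [mul_one] at h5
    have h6 := QuotientGroup.eq.1 h5.symm
    rw [inv_one, one_mul] at h6
    exact h6

/-- The product of two solvable normal subgroups is solvable. -/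
theorem solvable_sup {G : Type u} [Group G] (A B : Subgroup G) [B.Normal]
    (hA : Group.IsSolvable A) (hB : Group.IsSolvable B) :
    Group.IsSolvable (A ⊔ B : Subgroup G) := by
  let g : (A ⊔ B : Subgroup G) →* G ⧸ B := (QuotientGroup.mk' B).comp (A ⊔ B).subtype
  let f : B →* (A ⊔ B : Subgroup G) := Subgroup.inclusion le_sup_right
  have h1 : g.range ≤ A.map (QuotientGroup.mk' B) := by
    rintro _ ⟨⟨x, hx⟩, rfl⟩
    rw [Subgroup.mem_sup_of_normal_right] at hx
    obtain ⟨a, ha, b, hb, rfl⟩ := hx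
    refine ⟨a, ha, ?_⟩
    change (QuotientGroup.mk a : G ⧸ B) = QuotientGroup.mk (a * b)
    rw [QuotientGroup.eq]
    simpa using hb
  have h2 : Group.IsSolvable (A.map (QuotientGroup.mk' B)) :=
    Group.isSolvable_of_surjective (f := (QuotientGroup.mk' B).subgroupMap A)
      ((QuotientGroup.mk' B).subgroupMap_surjective A)
  have h3 : Group.IsSolvable g.range := solvable_mono h1 h2
  refine Group.isSolvable_of_ker_le_range f g.rangeRestrict ?_
  rintro ⟨x, hx⟩ hxk
  rw [MonoidHom.ker_rangeRestrict] at hxk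
  have h4 : x ∈ B := (QuotientGroup.eq_one_iff x).1 hxk
  exact ⟨⟨x, h4⟩, rfl⟩

/-- The product of two virtually polycyclic normal subgroups is virtually polycyclic. -/
theorem vpc_sup {G : Type u} [Group G] (A B : Subgroup G) [A.Normal] [B.Normal]
    (hA : VirtuallyPolycyclic A) (hB : VirtuallyPolycyclic B) :
    VirtuallyPolycyclic (A ⊔ B) := by
  constructor
  · intro H hH
    let π := QuotientGroup.mk' B
    let f : H →* G ⧸ B := π.comp H.subtype
    have hr : f.range = (A ⊓ (H.map π).comap π).map π := by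
      ext y
      constructor
      · rintro ⟨⟨x, hx⟩, rfl⟩
        have hx' := hH hx
        rw [Subgroup.mem_sup_of_normal_right] at hx'
        obtain ⟨a, ha, b, hb, hab⟩ := hx'
        have h5 : π a = π x := by
          change (QuotientGroup.mk a : G ⧸ B) = QuotientGroup.mk x
          rw [QuotientGroup.eq, ← hab]
          simpa using hb
        exact ⟨a, ⟨ha, ⟨x, hx, h5.symm⟩⟩, h5⟩
      · rintro ⟨a, ⟨_, ⟨x, hx, hxa⟩⟩, rfl⟩
        exact ⟨⟨x, hx⟩, hxa⟩
    have hrfg : f.range.FG := by
      rw [hr]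
      have h6 : (A ⊓ (H.map π).comap π).FG := hA.1 _ inf_le_left
      have h7 : Group.FG (A ⊓ (H.map π).comap π : Subgroup G) :=
        (Group.fg_iff_subgroup_fg _).2 h6
      exact (Group.fg_iff_subgroup_fg _).1 (Group.fg_of_surjective
        (π.subgroupMap_surjective (A ⊓ (H.map π).comap π)))
    have hkfg : f.rangeRestrict.ker.FG := by
      rw [MonoidHom.ker_rangeRestrict, ← fg_map_iff (Subgroup.subtype_injective H)]
      apply hB.1
      rintro _ ⟨x, hx, rfl⟩
      exact (QuotientGroup.eq_one_iff (x : G)).1 hx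
    have h8 : Group.FG H := fg_of_extension f.rangeRestrict f.rangeRestrict_surjective hkfg
      ((Group.fg_iff_subgroup_fg _).2 hrfg)
    exact (Group.fg_iff_subgroup_fg _).1 h8
  · obtain ⟨A0, hA0, hA0n, hA0i, hA0s⟩ := exists_normal_solv A hA
    obtain ⟨B0, hB0, hB0n, hB0i, hB0s⟩ := exists_normal_solv B hB
    refine ⟨A0 ⊔ B0, sup_le_sup hA0 hB0, ?_, solvable_sup A0 B0 hA0s hB0s⟩
    set K := A0 ⊔ B0 with hK
    have hKn : K.Normal := inferInstance
    set X := A ⊔ K with hX
    have hXn : X.Normal := inferInstance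
    have h1 : K.relIndex X ≠ 0 := by
      rw [hX, Subgroup.relIndex_sup_right]
      intro h2
      have h3 : K.relIndex A ∣ A0.relIndex A := Subgroup.relIndex_dvd_of_le_left A le_sup_left
      rw [h2, Nat.zero_dvd] at h3
      exact hA0i h3
    have h2 : X.relIndex (B ⊔ X) ≠ 0 := by
      rw [Subgroup.relIndex_sup_right]
      intro h2
      have h3 : X.relIndex B ∣ B0.relIndex B :=
        Subgroup.relIndex_dvd_of_le_left B (le_sup_right.trans le_sup_right)
      rw [h2, Nat.zero_dvd] at h3
      exact hB0i h3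
    have h3 : B ⊔ X = A ⊔ B := by
      rw [hX, hK]
      apply le_antisymm
      · refine sup_le le_sup_right (sup_le le_sup_left (sup_le ?_ ?_))
        · exact hA0.trans le_sup_left
        · exact hB0.trans le_sup_right
      · exact sup_le (le_sup_left.trans le_sup_right) le_sup_left
    rw [← h3]
    exact Subgroup.relIndex_ne_zero_trans h1 h2

end MP_52ecc8_gt_h75
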